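import Pool.Agent.N352.PJ.Cnt

/-!
# Project PJ (helper352), part BX: the size of the set of coefficients (helper402)
-/

set_option autoImplicit false

open Polynomial
open scoped Classical

namespace Pool.Agent.N402.PJ
open Pool.Agent.N352.PJ
open Pool.Agent.N874.PP (nm)

section

variable {k : Type} [Field k]

/-- the polynomials with a given leading coefficient in a class modulo `W` -/
def Tc (W A : k[X]) (m : ℕ) (c : k) : Set k[X] := {a | a.natDegree ≤ m ∧ a.coeff m = c ∧ W ∣ a - A}

theorem dm (b W : k[X]) : W * (b / W) + b % W = b := EuclideanDomain.div_add_mod b W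

theorem mod_eq_of_dvd {W : k[X]} (hW : W ≠ 0) {x y : k[X]} (h : W ∣ x - y) : x % W = y % W := by
  have h1 : W ∣ x % W - y % W := by
    obtain ⟨z, hz⟩ := h
    refine ⟨z - x / W + y / W, ?_⟩
    have h2 := dm x W
    have h3 := dm y W
    linear_combination h2 - h3 + hz
  have h4 : (x % W - y % W).degree < W.degree :=
    (degree_sub_le _ _).trans_lt (max_lt (EuclideanDomain.mod_lt x hW)
      (EuclideanDomain.mod_lt y hW))
  exact sub_eq_zero.1 (eq_zero_of_dvd_of_degree_lt h1 h4)

theorem Tc_eq {W : k[X]} (hW : W ≠ 0) (A : k[X]) {m : ℕ} (hm : W.natDegree ≤ m) (c : k) :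
    Tc W A m c = (fun y => C c * X ^ m + (A - C c * X ^ m) % W + W * y) ''
      (degreeLT k (m - W.natDegree) : Set k[X]) := by
  have hWd : W.degree = (W.natDegree : WithBot ℕ) := degree_eq_natDegree hW
  have hmod : ∀ b : k[X], (b % W).degree < (m : WithBot ℕ) := fun b =>
    (EuclideanDomain.mod_lt b hW : (b % W).degree < W.degree).trans_le
      (by rw [hWd]; exact_mod_cast hm)
  ext a
  simp only [Tc, Set.mem_ofPred_eq, Set.mem_image, SetLike.mem_coe, mem_degreeLT]
  constructor
  · rintro ⟨h1, h2, h3⟩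
    obtain ⟨b, hb⟩ : ∃ b, b = a - C c * X ^ m := ⟨_, rfl⟩
    have hbd : b.degree < m := by
      rw [degree_lt_iff_coeff_zero]
      intro n hn
      rw [hb, coeff_sub, coeff_C_mul_X_pow]
      rcases eq_or_lt_of_le hn with rfl | h
      · rw [if_pos rfl, h2, sub_self]
      · rw [if_neg (by omega), coeff_eq_zero_of_natDegree_lt (by omega), sub_zero]
    refine ⟨b / W, ?_, ?_⟩
    · by_cases h0 : b / W = 0
      · rw [h0, degree_zero]
        exact WithBot.bot_lt_coe _
      · have h4 : W.degree ≤ b.degree := by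
          by_contra h5
          exact h0 ((Polynomial.div_eq_zero_iff hW).2 (not_le.1 h5))
        have h5 := degree_add_div hW h4
        rw [degree_eq_natDegree h0] at h5 ⊢
        rw [← h5, hWd] at hbd
        have h6 : W.natDegree + (b / W).natDegree < m := by exact_mod_cast hbd
        have h7 : (b / W).natDegree < m - W.natDegree := by omega
        exact_mod_cast h7
    · have h4 : (A - C c * X ^ m) % W = b % W := by
        apply mod_eq_of_dvd hW
        rw [hb]
        obtain ⟨z, hz⟩ := h3
        exact ⟨-z, by linear_combination -hz⟩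
      rw [h4]
      have h5 := dm b W
      linear_combination h5 + hb
  · rintro ⟨y, hy, rfl⟩
    have hWy : (W * y).degree < m := by
      by_cases h0 : y = 0
      · rw [h0, mul_zero, degree_zero]
        exact WithBot.bot_lt_coe _
      · rw [degree_mul, hWd, degree_eq_natDegree h0]
        rw [degree_eq_natDegree h0] at hy
        have h6 : y.natDegree < m - W.natDegree := by exact_mod_cast hy
        have h7 : W.natDegree + y.natDegree < m := by omega
        exact_mod_cast h7
    have hlow : ((A - C c * X ^ m) % W + W * y).degree < (m : WithBot ℕ) :=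
      (degree_add_le _ _).trans_lt (max_lt (hmod _) hWy)
    rw [add_assoc]
    refine ⟨?_, ?_, ?_⟩
    · refine (natDegree_add_le _ _).trans (max_le (natDegree_C_mul_X_pow_le _ _) ?_)
      exact natDegree_le_of_degree_le hlow.le
    · rw [coeff_add, coeff_C_mul_X_pow, if_pos rfl, coeff_eq_zero_of_degree_lt hlow, add_zero]
    · have h5 := dm (A - C c * X ^ m) W
      refine ⟨y - (A - C c * X ^ m) / W, ?_⟩
      linear_combination h5

theorem Tc_card [Finite k] {W : k[X]} (hW : W ≠ 0) (A : k[X]) {m : ℕ} (hm : W.natDegree ≤ m)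
    (c : k) : Finite (Tc W A m c) ∧ Nat.card (Tc W A m c) = Nat.card k ^ (m - W.natDegree) := by
  rw [Tc_eq hW A hm c]
  have hinj : Function.Injective
      (fun y => C c * X ^ m + (A - C c * X ^ m) % W + W * y) := by
    intro y y' h
    exact mul_left_cancel₀ hW (add_left_cancel h)
  have e : (degreeLT k (m - W.natDegree)) ≃ (Fin (m - W.natDegree) → k) :=
    (degreeLTEquiv k (m - W.natDegree)).toEquiv
  have hfin : Finite (degreeLT k (m - W.natDegree)) := Finite.of_equiv _ e.symm
  constructor
  · have : Finite ((degreeLT k (m - W.natDegree) : Set k[X])) := hfin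
    exact (Set.toFinite (degreeLT k (m - W.natDegree) : Set k[X])).image _
  · rw [Nat.card_image_of_injective hinj]
    have h1 : Nat.card (degreeLT k (m - W.natDegree) : Set k[X]) =
        Nat.card (Fin (m - W.natDegree) → k) := Nat.card_congr e
    rw [h1, Nat.card_fun, Nat.card_fin]

end

theorem sum_m (n : ℕ) : 2 * ∑ j ∈ Finset.range n, (n + 1 - j) = n * (n + 3) := by
  induction n with
  | zero => rfl
  | succ n ih =>
    rw [Finset.sum_range_succ', Nat.sub_zero]
    have e : ∑ j ∈ Finset.range n, (n + 1 + 1 - (j + 1)) = ∑ j ∈ Finset.range n, (n + 1 - j) :=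
      Finset.sum_congr rfl fun j _ => by omega
    rw [e, mul_add, ih]
    ring

theorem sum_M (g N : ℕ) : ∑ j : Fin (2 * g), (2 * N * (2 * g + 1 - (j : ℕ))) =
    2 * N * dd g := by
  rw [← Finset.mul_sum, Fin.sum_univ_eq_sum_range (fun j => 2 * g + 1 - j) (2 * g)]
  congr 1
  have h := sum_m (2 * g)
  have h2 : 2 * dd g = 2 * g * (2 * g + 3) := by
    unfold dd
    ring
  omega

/-- **PJ/BX** -/
theorem bx : S_BX := by
  intro g k _ _ N r W A hW hd
  have hm : ∀ j : Fin (2 * g), W.natDegree ≤ 2 * N * (2 * g + 1 - (j : ℕ)) := by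
    intro j
    have hj := j.2
    calc W.natDegree ≤ 4 * N := hd
      _ = 2 * N * 2 := by ring
      _ ≤ 2 * N * (2 * g + 1 - (j : ℕ)) := Nat.mul_le_mul_left _ (by omega)
  have hB : Bx g N r W A = Set.pi Set.univ fun j : Fin (2 * g) =>
      Tc W (A j) (2 * N * (2 * g + 1 - (j : ℕ))) (r.coeff j) := by
    ext a
    simp only [Bx, Tc, Set.mem_ofPred_eq, Set.mem_pi, Set.mem_univ, true_implies]
  have hc := fun j : Fin (2 * g) => Tc_card hW (A j) (hm j) (r.coeff j)
  have hfin : (Bx g N r W A).Finite := by
    rw [hB]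
    exact Set.Finite.pi fun j => (by have := (hc j).1; exact Set.toFinite _)
  refine ⟨hfin, ?_⟩
  have h1 : (Bx g N r W A).ncard = ∏ j : Fin (2 * g),
      Nat.card k ^ (2 * N * (2 * g + 1 - (j : ℕ)) - W.natDegree) := by
    rw [← Nat.card_coe_set_eq, hB, Nat.card_congr (Equiv.Set.univPi _), Nat.card_pi]
    exact Finset.prod_congr rfl fun j _ => (hc j).2
  have h2 : nm W ^ (2 * g) = ∏ _j : Fin (2 * g), Nat.card k ^ W.natDegree := by
    rw [Finset.prod_const, Finset.card_univ, Fintype.card_fin]
    rfl
  rw [h1, h2, ← Finset.prod_mul_distrib, ← sum_M g N, ← Finset.prod_pow_eq_pow_sum]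
  refine Finset.prod_congr rfl fun j _ => ?_
  rw [← pow_add, Nat.sub_add_cancel (hm j)]

end Pool.Agent.N402.PJ
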