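import Pool.Agent.N352.PJ.Cnt

/-!
# Project PJ (helper352), part LD: discriminants divisible by the square of a prime (helper402)
-/

set_option autoImplicit false
set_option linter.all false

open Polynomial
open scoped Classical

namespace Pool.Agent.N402.PJ.LD

open Pool.Agent.N352.PJ
open Pool.Agent.N874.PP (nm)

/-! ### double counting -/

theorem dc {ι S : Type} [DecidableEq ι] [Fintype ι] [Fintype S] (i : ι) (Q Q1 : (ι → S) → Prop)
    [DecidablePred Q] [DecidablePred Q1] (C : ℕ)
    (h1 : ∀ a y, Q (Function.update a i y) → Q1 a)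
    (h : ∀ a, Q1 a → (Finset.univ.filter fun y : S => Q (Function.update a i y)).card ≤ C) :
    (Finset.univ.filter Q).card * Fintype.card S ≤ C * (Finset.univ.filter Q1).card := by
  have h2 : (Finset.univ.filter Q).card * Fintype.card S ≤
      ((Finset.univ.filter Q1).sigma fun a =>
        Finset.univ.filter fun y : S => Q (Function.update a i y)).card := by
    rw [← Finset.card_univ (α := S), ← Finset.card_product]
    refine Finset.card_le_card_of_injOn
      (fun p => (⟨Function.update p.1 i p.2, p.1 i⟩ : (_ : ι → S) × S)) ?_ ?_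
    · rintro ⟨b, z⟩ hp
      rw [Finset.mem_coe, Finset.mem_product, Finset.mem_filter] at hp
      have h3 : Q (Function.update (Function.update b i z) i (b i)) := by
        rw [Function.update_idem, Function.update_eq_self]
        exact hp.1.2
      rw [Finset.mem_coe, Finset.mem_sigma, Finset.mem_filter, Finset.mem_filter]
      exact ⟨⟨Finset.mem_univ _, h1 _ _ h3⟩, Finset.mem_univ _, h3⟩
    · rintro ⟨b, z⟩ _ ⟨b', z'⟩ _ he
      have h3 : Function.update b i z = Function.update b' i z' := (Sigma.mk.inj he).1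
      have h4 : b i = b' i := eq_of_heq (Sigma.mk.inj he).2
      have h5 : z = z' := by
        have := congrFun h3 i
        rwa [Function.update_self, Function.update_self] at this
      have h6 : b = b' := by
        funext j
        by_cases hj : j = i
        · rw [hj, h4]
        · have := congrFun h3 j
          rwa [Function.update_of_ne hj, Function.update_of_ne hj] at this
      rw [h5, h6]
  refine h2.trans ?_
  rw [Finset.card_sigma, mul_comm]
  exact Finset.sum_le_card_nsmul _ _ _ fun a ha => h a (Finset.mem_filter.1 ha).2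

/-! ### roots modulo `P` -/

section roots

variable {k : Type} [Field k] [Finite k] (P : k[X])

theorem dm (b W : k[X]) : W * (b / W) + b % W = b := EuclideanDomain.div_add_mod b W

theorem mod_eq_of_dvd {W : k[X]} (hW : W ≠ 0) {x y : k[X]} (h : W ∣ x - y) : x % W = y % W := by
  have h1 : W ∣ x % W - y % W := by
    obtain ⟨z, hz⟩ := h
    refine ⟨z - x / W + y / W, ?_⟩
    have h2 := dm x W
    have h3 := dm y W
    linear_combination h2 - h3 + hz
  have h4 : (x % W - y % W).degree < W.degree :=
    (degree_sub_le _ _).trans_lt (max_lt (EuclideanDomain.mod_lt x hW)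
      (EuclideanDomain.mod_lt y hW))
  exact sub_eq_zero.1 (eq_zero_of_dvd_of_degree_lt h1 h4)

/-- the polynomials of degree less than twice the degree of `P` -/
abbrev SS : Type := degreeLT k (2 * P.natDegree)

theorem card_lt (n : ℕ) : Nat.card (degreeLT k n) = Nat.card k ^ n := by
  rw [Nat.card_congr (degreeLTEquiv k n).toEquiv, Nat.card_fun, Nat.card_fin]

instance fin_lt (n : ℕ) : Finite (degreeLT k n) := Finite.of_equiv _ (degreeLTEquiv k n).symm.toEquiv

noncomputable instance : Fintype (SS P) := Fintype.ofFinite _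

theorem card_SS : Fintype.card (SS P) = nm P ^ 2 := by
  rw [← Nat.card_eq_fintype_card, card_lt, nm, ← pow_mul, mul_comm]

variable {P}

theorem SS_deg (y : SS P) : (y : k[X]).degree < ((2 * P.natDegree : ℕ) : WithBot ℕ) :=
  mem_degreeLT.1 y.2

theorem fibP (hP : P ≠ 0) (r : k[X]) :
    (Finset.univ.filter fun y : SS P => P ∣ (y : k[X]) - r).card ≤ nm P := by
  have hPd : P.degree = (P.natDegree : WithBot ℕ) := degree_eq_natDegree hP
  have hdiv : ∀ y : SS P, (y : k[X]) / P ∈ degreeLT k P.natDegree := by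
    intro y
    rw [mem_degreeLT]
    by_cases h0 : (y : k[X]) / P = 0
    · rw [h0, degree_zero]
      exact WithBot.bot_lt_coe _
    · have h4 : P.degree ≤ (y : k[X]).degree := by
        by_contra h5
        exact h0 ((Polynomial.div_eq_zero_iff hP).2 (not_le.1 h5))
      have h5 := degree_add_div hP h4
      have h6 := SS_deg y
      rw [degree_eq_natDegree h0] at h5 ⊢
      rw [← h5, hPd] at h6
      have h7 : P.natDegree + ((y : k[X]) / P).natDegree < 2 * P.natDegree := by exact_mod_cast h6
      have h8 : ((y : k[X]) / P).natDegree < P.natDegree := by omega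
      exact_mod_cast h8
  letI : Fintype (degreeLT k P.natDegree) := Fintype.ofFinite _
  have h1 : (Finset.univ.filter fun y : SS P => P ∣ (y : k[X]) - r).card ≤
      (Finset.univ : Finset (degreeLT k P.natDegree)).card := by
    refine Finset.card_le_card_of_injOn (fun y => ⟨(y : k[X]) / P, hdiv y⟩)
      (fun _ _ => Finset.mem_univ _) ?_
    intro y hy y' hy' he
    rw [Finset.mem_coe, Finset.mem_filter] at hy hy'
    have h2 : (y : k[X]) / P = (y' : k[X]) / P := congrArg Subtype.val he
    have h3 := mod_eq_of_dvd hP hy.2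
    have h4 := mod_eq_of_dvd hP hy'.2
    apply Subtype.ext
    rw [← dm (y : k[X]) P, ← dm (y' : k[X]) P, h2, h3, h4]
  rw [Finset.card_univ, ← Nat.card_eq_fintype_card, card_lt] at h1
  exact h1

/-- the residue map -/
noncomputable abbrev pr (P : k[X]) : k[X] →+* k[X] ⧸ Ideal.span {P} := Ideal.Quotient.mk _

theorem pr_zero (x : k[X]) : pr P x = 0 ↔ P ∣ x := by
  rw [Ideal.Quotient.eq_zero_iff_mem, Ideal.mem_span_singleton]

theorem rootsP (hP : Irreducible P) (F : k[X][X]) (d : ℕ) (hd : F.natDegree ≤ d)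
    (hc : ¬ P ∣ F.coeff d) :
    (Finset.univ.filter fun y : SS P => P ∣ F.eval (y : k[X])).card ≤ d * nm P ∧
    ((∀ y : k[X], P ∣ F.eval y → ¬ P ∣ (derivative F).eval y) →
      (Finset.univ.filter fun y : SS P => P ^ 2 ∣ F.eval (y : k[X])).card ≤ d) := by
  haveI hm : (Ideal.span {P}).IsMaximal :=
    PrincipalIdealRing.isMaximal_of_irreducible hP
  letI : Field (k[X] ⧸ Ideal.span {P}) := Ideal.Quotient.field _
  have hne : F.map (pr P) ≠ 0 := by
    intro h
    have h1 := congrArg (fun G => G.coeff d) h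
    simp only [coeff_map, coeff_zero] at h1
    exact hc ((pr_zero _).1 h1)
  have hroot : ∀ y : k[X], P ∣ F.eval y → pr P y ∈ (F.map (pr P)).roots.toFinset := by
    intro y hy
    rw [Multiset.mem_toFinset, mem_roots hne, IsRoot, eval_map, eval₂_hom, pr_zero]
    exact hy
  have hcard : (F.map (pr P)).roots.toFinset.card ≤ d :=
    (Multiset.toFinset_card_le _).trans ((card_roots' _).trans
      ((natDegree_map_le).trans hd))
  constructor
  · have h1 := Finset.card_le_mul_card_image_of_maps_to
      (s := Finset.univ.filter fun y : SS P => P ∣ F.eval (y : k[X]))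
      (t := (F.map (pr P)).roots.toFinset) (f := fun y : SS P => pr P y)
      (fun y hy => hroot y (Finset.mem_filter.1 hy).2) (nm P) (by
        intro ρ hρ
        obtain ⟨r, rfl⟩ := Ideal.Quotient.mk_surjective ρ
        refine (Finset.card_le_card ?_).trans (fibP hP.ne_zero r)
        intro y hy
        rw [Finset.mem_filter] at hy ⊢
        refine ⟨Finset.mem_univ _, ?_⟩
        rw [← pr_zero, map_sub, sub_eq_zero]
        exact hy.2)
    exact (h1.trans (Nat.mul_le_mul_left _ hcard)).trans_eq (mul_comm _ _)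
  · intro hs
    refine (Finset.card_le_card_of_injOn (t := (F.map (pr P)).roots.toFinset)
      (fun y : SS P => pr P y) (fun y hy =>
        hroot y ((dvd_pow_self P two_ne_zero).trans (Finset.mem_filter.1 hy).2)) ?_).trans hcard
    intro y hy y' hy' he
    rw [Finset.mem_coe, Finset.mem_filter] at hy hy'
    have hd1 : P ∣ (y' : k[X]) - y := by
      rw [← pr_zero, map_sub, sub_eq_zero]
      exact he.symm
    have hd2 : P ^ 2 ∣ (y' : k[X]) - y := by
      obtain ⟨z, hz⟩ := hd1
      obtain ⟨t, ht⟩ := Polynomial.binomExpansion F (y : k[X]) ((y' : k[X]) - y)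
      rw [add_sub_cancel] at ht
      obtain ⟨u, hu⟩ := hy.2
      obtain ⟨u', hu'⟩ := hy'.2
      have h5 : P * (P * (u' - u - t * z ^ 2)) = P * ((derivative F).eval (y : k[X]) * z) := by
        rw [hu, hu', hz] at ht
        linear_combination ht
      have h6 : P ∣ (derivative F).eval (y : k[X]) * z := ⟨_, (mul_left_cancel₀ hP.ne_zero h5).symm⟩
      rcases hP.prime.dvd_or_dvd h6 with h7 | ⟨w, hw⟩
      · exact absurd h7 (hs _ ((dvd_pow_self P two_ne_zero).trans hy.2))
      · exact ⟨w, by rw [hz, hw]; ring⟩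
    apply Subtype.ext
    have hlt : ((y' : k[X]) - y).degree < (P ^ 2).degree := by
      rw [degree_pow, degree_eq_natDegree hP.ne_zero]
      refine (degree_sub_le _ _).trans_lt (max_lt ?_ ?_)
      · exact_mod_cast SS_deg y'
      · exact_mod_cast SS_deg y
    exact (sub_eq_zero.1 (eq_zero_of_dvd_of_degree_lt hd2 hlt)).symm

end roots

/-! ### the dependence on the two indices -/

section dep

variable {g : ℕ} {R : Type} [CommRing R]

theorem Dy_congr {a b : Fin (2 * g) → R} (h : ∀ j : Fin (2 * g), (j : ℕ) ≠ 0 → a j = b j) :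
    Dy a = Dy b := by
  unfold Dy
  congr 1
  funext j
  by_cases hj : (j : ℕ) = 0
  · rw [if_pos hj, if_pos hj]
  · rw [if_neg hj, if_neg hj, h j hj]

theorem D2_congr {a b : Fin (2 * g) → R} (h : ∀ j : Fin (2 * g), (j : ℕ) ≠ 0 → a j = b j) :
    D2 a = D2 b := by
  unfold D2
  rw [Dy_congr h]

theorem no_double {F : R[X]} {m n : ℕ} (hF : F.natDegree ≤ m) (hF' : (derivative F).natDegree ≤ n)
    (hm : m ≠ 0) {P : R} (hP : ¬ P ∣ F.resultant (derivative F) m n) (y : R) (hy : P ∣ F.eval y) :
    ¬ P ∣ (derivative F).eval y := by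
  intro hy'
  obtain ⟨p, q, _, _, h⟩ := exists_mul_add_mul_eq_C_resultant F (derivative F) hF hF' (Or.inl hm)
  apply hP
  have h2 := congrArg (eval y) h
  rw [eval_add, eval_mul, eval_mul, eval_C] at h2
  rw [← h2]
  exact dvd_add (Dvd.dvd.mul_right hy _) (Dvd.dvd.mul_right hy' _)

end dep

/-! ### the count -/

section count

variable {g : ℕ} {k : Type} [Field k] [Finite k] {P : k[X]}

/-- the underlying tuple -/
def co (a : Fin (2 * g) → SS P) : Fin (2 * g) → k[X] := fun j => (a j : k[X])

theorem co_update (a : Fin (2 * g) → SS P) (i : Fin (2 * g)) (y : SS P) (n : ℕ) (hi : (i : ℕ) = n) :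
    co (Function.update a i y) = fun j : Fin (2 * g) => if (j : ℕ) = n then (y : k[X]) else co a j := by
  funext j
  by_cases hj : j = i
  · subst hj
    rw [if_pos hi, co, Function.update_self]
  · rw [if_neg (by rw [← hi]; exact fun h => hj (Fin.ext h)), co, Function.update_of_ne hj, co]

end count

/-- **PJ/LD** -/
theorem ld (h1 : S_D1) (h2 : S_D2) : S_LD := by
  intro g k _ _ hg hfac P hP
  have hi0 : 0 < 2 * g := by omega
  have hi1 : 1 < 2 * g := by omega
  have hM : 0 < nm P := by
    rw [nm]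
    exact pow_pos Nat.card_pos _
  -- the number of tuples
  have hV : (Finset.univ : Finset (Fin (2 * g) → SS P)).card = nm P ^ (4 * g) := by
    rw [Finset.card_univ, Fintype.card_fun, card_SS, Fintype.card_fin, ← pow_mul]
    congr 1
    ring
  have hfac1 : ((2 * g + 1 : ℕ) : k) ≠ 0 := by
    intro h
    apply hfac
    rw [Nat.factorial_succ, Nat.cast_mul, h, zero_mul]
  have hunit : ∀ b : Fin (2 * g) → k[X], IsUnit ((Dy b).coeff (2 * g)) := by
    intro b
    obtain ⟨_, ⟨ε, hε, hc⟩, _⟩ := h1 g k[X] b hg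
    rw [hc]
    refine IsUnit.mul ?_ (IsUnit.pow _ ?_)
    · rcases hε with rfl | rfl
      · rw [Int.cast_one]
        exact isUnit_one
      · rw [Int.cast_neg, Int.cast_one]
        exact isUnit_one.neg
    · have : (2 * g + 1 : k[X]) = C ((2 * g + 1 : ℕ) : k) := by
        rw [map_natCast]
        push_cast
        rfl
      rw [this]
      exact isUnit_C.2 (isUnit_iff_ne_zero.2 hfac1)
  have hnd : ∀ x : k[X], IsUnit x → ¬ P ∣ x := fun x hx h => hP.not_isUnit (isUnit_of_dvd_unit h hx)
  have hDy : ∀ b : Fin (2 * g) → k[X], (Dy b).natDegree ≤ 2 * g := fun b => (h1 g k[X] b hg).1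
  have hDy' : ∀ b : Fin (2 * g) → k[X], (derivative (Dy b)).natDegree ≤ 2 * g - 1 := fun b =>
    (natDegree_derivative_le _).trans (Nat.sub_le_sub_right (hDy b) 1)
  -- the three sets
  have hE := dc (ι := Fin (2 * g)) (S := SS P) ⟨1, hi1⟩ (fun a => P ∣ D2 (co a)) (fun _ => True)
    ((2 * g - 1) * (2 * g + 1) * nm P) (fun _ _ _ => trivial) (by
      intro a _
      obtain ⟨h3, h4, h5⟩ := h2 g k k[X] (co a) hg hfac
      refine le_trans (Finset.card_le_card ?_) (rootsP hP _ _ h3 (hnd _ h4)).1
      intro y hy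
      rw [Finset.mem_filter] at hy ⊢
      refine ⟨Finset.mem_univ _, ?_⟩
      rw [h5, ← co_update a ⟨1, hi1⟩ y 1 rfl]
      exact hy.2)
  have hA := dc (ι := Fin (2 * g)) (S := SS P) ⟨0, hi0⟩
    (fun a => ¬ P ∣ D2 (co a) ∧ P ^ 2 ∣ dis (co a)) (fun _ => True)
    (2 * g) (fun _ _ _ => trivial) (by
      intro a _
      obtain ⟨h3, _, h5⟩ := h1 g k[X] (co a) hg
      by_cases hD : P ∣ D2 (co a)
      · rw [Finset.card_eq_zero.2]
        · exact Nat.zero_le _
        · rw [Finset.filter_eq_empty_iff]
          intro y _ hy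
          apply hy.1
          rw [D2_congr (b := co a)]
          · exact hD
          · intro j hj
            rw [co_update a ⟨0, hi0⟩ y 0 rfl]
            simp only [if_neg hj]
      · refine le_trans (Finset.card_le_card ?_) ((rootsP hP _ _ h3 (hnd _ (hunit _))).2
          (no_double h3 (hDy' _) hi0.ne' hD))
        intro y hy
        rw [Finset.mem_filter] at hy ⊢
        refine ⟨Finset.mem_univ _, ?_⟩
        rw [h5, ← co_update a ⟨0, hi0⟩ y 0 rfl]
        exact hy.2.2)
  have hB := dc (ι := Fin (2 * g)) (S := SS P) ⟨0, hi0⟩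
    (fun a => P ∣ D2 (co a) ∧ P ∣ dis (co a)) (fun a => P ∣ D2 (co a))
    (2 * g * nm P) (by
      intro a y h
      rw [D2_congr (b := co (Function.update a ⟨0, hi0⟩ y))]
      · exact h.1
      · intro j hj
        rw [co_update a ⟨0, hi0⟩ y 0 rfl]
        simp only [if_neg hj]) (by
      intro a _
      obtain ⟨h3, _, h5⟩ := h1 g k[X] (co a) hg
      refine le_trans (Finset.card_le_card ?_) (rootsP hP _ _ h3 (hnd _ (hunit _))).1
      intro y hy
      rw [Finset.mem_filter] at hy ⊢
      refine ⟨Finset.mem_univ _, ?_⟩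
      rw [h5, ← co_update a ⟨0, hi0⟩ y 0 rfl]
      exact hy.2.2)
  rw [card_SS] at hE hA hB
  rw [Finset.filter_true, hV] at hE hA
  set e := (Finset.univ.filter fun a : Fin (2 * g) → SS P => P ∣ D2 (co a)).card with he
  set α := (Finset.univ.filter fun a : Fin (2 * g) → SS P =>
    ¬ P ∣ D2 (co a) ∧ P ^ 2 ∣ dis (co a)).card with hα
  set β := (Finset.univ.filter fun a : Fin (2 * g) → SS P =>
    P ∣ D2 (co a) ∧ P ∣ dis (co a)).card with hβ
  have hB2 : β * nm P ^ 2 ≤ 2 * g * ((2 * g - 1) * (2 * g + 1)) * nm P ^ (4 * g) := by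
    have h3 : nm P ^ 2 * (β * nm P ^ 2) ≤
        nm P ^ 2 * (2 * g * ((2 * g - 1) * (2 * g + 1)) * nm P ^ (4 * g)) := by
      calc nm P ^ 2 * (β * nm P ^ 2) ≤ nm P ^ 2 * (2 * g * nm P * e) := Nat.mul_le_mul_left _ hB
        _ = 2 * g * nm P * (e * nm P ^ 2) := by ring
        _ ≤ 2 * g * nm P * ((2 * g - 1) * (2 * g + 1) * nm P * nm P ^ (4 * g)) :=
          Nat.mul_le_mul_left _ hE
        _ = nm P ^ 2 * (2 * g * ((2 * g - 1) * (2 * g + 1)) * nm P ^ (4 * g)) := by ring
    exact Nat.le_of_mul_le_mul_left h3 (pow_pos hM 2)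
  have hset : {a : Fin (2 * g) → k[X] | (∀ j, (a j).degree < 2 * P.natDegree) ∧
      P ^ 2 ∣ dis a}.ncard ≤ α + β := by
    have h3 : {a : Fin (2 * g) → k[X] | (∀ j, (a j).degree < 2 * P.natDegree) ∧
        P ^ 2 ∣ dis a} ⊆ co '' ((Finset.univ.filter fun a : Fin (2 * g) → SS P =>
          P ^ 2 ∣ dis (co a) : Finset (Fin (2 * g) → SS P)) : Set (Fin (2 * g) → SS P)) := by
      rintro a ⟨ha, ha2⟩
      refine ⟨fun j => ⟨a j, mem_degreeLT.2 ?_⟩, ?_, rfl⟩
      · have := ha j
        exact_mod_cast this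
      · rw [Finset.mem_coe, Finset.mem_filter]
        exact ⟨Finset.mem_univ _, ha2⟩
    refine (Set.ncard_le_ncard h3 ((Finset.finite_toSet _).image _)).trans ?_
    refine (Set.ncard_image_le (Finset.finite_toSet _)).trans ?_
    rw [Set.ncard_coe_finset]
    refine (Finset.card_le_card ?_).trans (Finset.card_union_le _ _)
    intro a ha
    rw [Finset.mem_filter] at ha
    rw [Finset.mem_union, Finset.mem_filter, Finset.mem_filter]
    by_cases hD : P ∣ D2 (co a)
    · exact Or.inr ⟨Finset.mem_univ _, hD, (dvd_pow_self P two_ne_zero).trans ha.2⟩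
    · exact Or.inl ⟨Finset.mem_univ _, hD, ha.2⟩
  calc _ ≤ (α + β) * nm P ^ 2 := Nat.mul_le_mul_right _ hset
    _ = α * nm P ^ 2 + β * nm P ^ 2 := by ring
    _ ≤ 2 * g * nm P ^ (4 * g) + 2 * g * ((2 * g - 1) * (2 * g + 1)) * nm P ^ (4 * g) :=
      Nat.add_le_add hA hB2
    _ = _ := by ring

end Pool.Agent.N402.PJ.LD
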